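import Pool.Agent.QSX.StmtsG

/-!
Row CLG of squad QSX: the class condition defines a group.
-/

set_option autoImplicit false

namespace Pool.Agent.QSX.H24

open Matrix Finset Pool.Agent.QSX

variable {m : ℕ}

theorem bd_mul {R : ℝ} {p : Fin m → ℝ} {ε₁ ε₂ C D : ℝ} {x y : Matrix (Fin m) (Fin m) ℝ}
    (hC : 0 ≤ C) (hx : ∀ i l, |x i l| ≤ C * Real.exp (R * (p i - p l + ε₁)))
    (hy : ∀ i l, |y i l| ≤ D * Real.exp (R * (p i - p l + ε₂))) (i l : Fin m) :
    |(x * y) i l| ≤ m * (C * D) * Real.exp (R * (p i - p l + (ε₁ + ε₂))) := by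
  rw [Matrix.mul_apply]
  refine (Finset.abs_sum_le_sum_abs _ _).trans ?_
  have h1 : ∀ k ∈ (Finset.univ : Finset (Fin m)), |x i k * y k l| ≤
      C * D * Real.exp (R * (p i - p l + (ε₁ + ε₂))) := by
    intro k _
    rw [abs_mul]
    have h2 := mul_le_mul (hx i k) (hy k l) (abs_nonneg _)
      (mul_nonneg hC (Real.exp_pos _).le)
    refine h2.trans (le_of_eq ?_)
    have e : Real.exp (R * (p i - p l + (ε₁ + ε₂))) =
        Real.exp (R * (p i - p k + ε₁)) * Real.exp (R * (p k - p l + ε₂)) := by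
      rw [← Real.exp_add]
      congr 1
      ring
    rw [e]
    ring
  refine (Finset.sum_le_sum h1).trans (le_of_eq ?_)
  rw [Finset.sum_const, Finset.card_univ, Fintype.card_fin, nsmul_eq_mul]
  ring

theorem bd_one {R : ℝ} {p : Fin m → ℝ} (i l : Fin m) :
    |(1 : Matrix (Fin m) (Fin m) ℝ) i l| ≤ Real.exp (R * (p i - p l + 0)) := by
  by_cases h : i = l
  · subst h
    rw [Matrix.one_apply_eq, abs_one, sub_self, add_zero, mul_zero, Real.exp_zero]
  · rw [Matrix.one_apply_ne h, abs_zero]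
    exact (Real.exp_pos _).le

theorem bd_pow {R : ℝ} {p : Fin m → ℝ} {ε : ℝ} {x : Matrix (Fin m) (Fin m) ℝ}
    (hx : ∀ i l, |x i l| ≤ Real.exp (R * (p i - p l + ε))) (k : ℕ) (i l : Fin m) :
    |(x ^ k) i l| ≤ (m : ℝ) ^ k * Real.exp (R * (p i - p l + k * ε)) := by
  induction k generalizing i l with
  | zero =>
    rw [pow_zero, pow_zero, one_mul, Nat.cast_zero, zero_mul]
    exact bd_one i l
  | succ k ih =>
    rw [pow_succ]
    have h := bd_mul (C := (m : ℝ) ^ k) (D := 1) (by positivity) ih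
      (fun i l => by rw [one_mul]; exact hx i l) i l
    refine h.trans (le_of_eq ?_)
    have e : (k : ℝ) * ε + ε = ((k + 1 : ℕ) : ℝ) * ε := by
      push_cast
      ring
    rw [e]
    ring

theorem uu_bd {R : ℝ} (hR : 0 ≤ R) {p : Fin m → ℝ} {ε : ℝ} (hε : 0 ≤ ε)
    {x : Matrix (Fin m) (Fin m) ℝ} (hU : UU x)
    (hx : ∀ i l, i < l → |x i l| ≤ Real.exp (R * (p i - p l + ε))) (i l : Fin m) :
    |x i l| ≤ Real.exp (R * (p i - p l + ε)) := by
  rcases lt_trichotomy i l with h | h | h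
  · exact hx i l h
  · subst h
    have h1 := hU i i le_rfl
    rw [Matrix.sub_apply, Matrix.one_apply_eq, sub_eq_zero] at h1
    rw [h1, abs_one, sub_self, zero_add]
    exact Real.one_le_exp (mul_nonneg hR hε)
  · have h1 := hU i l h.le
    rw [Matrix.sub_apply, Matrix.one_apply_ne h.ne', sub_zero] at h1
    rw [h1, abs_zero]
    exact (Real.exp_pos _).le

theorem su_bd {R : ℝ} {p : Fin m → ℝ} {ε : ℝ}
    {x : Matrix (Fin m) (Fin m) ℝ} (hU : UU x)
    (hx : ∀ i l, i < l → |x i l| ≤ Real.exp (R * (p i - p l + ε))) (i l : Fin m) :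
    |(1 - x) i l| ≤ Real.exp (R * (p i - p l + ε)) := by
  rcases lt_or_ge i l with h | h
  · rw [Matrix.sub_apply, Matrix.one_apply_ne h.ne, zero_sub, abs_neg]
    exact hx i l h
  · have h1 := hU i l h
    have h2 : (1 - x) i l = 0 := by
      rw [Matrix.sub_apply] at h1 ⊢
      linarith
    rw [h2, abs_zero]
    exact (Real.exp_pos _).le

theorem inv_eq (g : (Matrix (Fin m) (Fin m) ℝ)ˣ) (hU : UU (g : Matrix (Fin m) (Fin m) ℝ)) :
    ((g⁻¹ : (Matrix (Fin m) (Fin m) ℝ)ˣ) : Matrix (Fin m) (Fin m) ℝ) =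
      ∑ k ∈ range (m + 1), (1 - (g : Matrix (Fin m) (Fin m) ℝ)) ^ k := by
  apply Units.inv_eq_of_mul_eq_one_right
  have h1 : SU (1 - (g : Matrix (Fin m) (Fin m) ℝ)) := by
    have := SU.neg hU
    rwa [neg_sub] at this
  have h2 := mul_neg_geom_sum (1 - (g : Matrix (Fin m) (Fin m) ℝ)) (m + 1)
  rw [h1.pow_eq_zero (Nat.le_succ m), sub_zero, sub_sub_cancel] at h2
  exact h2

theorem absorb {C R ε : ℝ} (hε : 0 < ε) (hC : 0 < C) (hR : 2 / ε * Real.log C ≤ R) :
    C ≤ Real.exp (R * (ε / 2)) := by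
  rw [← Real.log_le_iff_le_exp hC]
  have h := mul_le_mul_of_nonneg_left hR (by positivity : (0 : ℝ) ≤ ε / 2)
  calc Real.log C = ε / 2 * (2 / ε * Real.log C) := by field_simp
    _ ≤ ε / 2 * R := h
    _ = R * (ε / 2) := by ring

theorem clg : ClgStmt := by
  intro S V m P B g h hg hh cg ch
  refine ⟨?_, ?_⟩
  · intro ε hε
    filter_upwards [cg (ε / 4) (by positivity), ch (ε / 4) (by positivity), S.ev_R 0,
      S.ev_R (2 / ε * Real.log ((m : ℝ) + 1))] with s h1 h2 h3 h4 a ha i l hil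
    have e1 := uu_bd h3 (by positivity : (0 : ℝ) ≤ ε / 4) (hg s a) (h1 a ha)
    have e2 := uu_bd h3 (by positivity : (0 : ℝ) ≤ ε / 4) (hh s a) (h2 a ha)
    have e3 := bd_mul (C := 1) (D := 1) zero_le_one (fun i l => by rw [one_mul]; exact e1 i l)
      (fun i l => by rw [one_mul]; exact e2 i l) i l
    have e4 : (m : ℝ) + 1 ≤ Real.exp (S.R s * (ε / 2)) := absorb hε (by positivity) h4
    have e5 : (m : ℝ) * (1 * 1) ≤ Real.exp (S.R s * (ε / 2)) := by linarith
    have e6 := mul_le_mul_of_nonneg_right e5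
      (Real.exp_pos (S.R s * (P a i - P a l + (ε / 4 + ε / 4)))).le
    have e7 : Real.exp (S.R s * (ε / 2)) * Real.exp (S.R s * (P a i - P a l + (ε / 4 + ε / 4))) =
        Real.exp (S.R s * (P a i - P a l + ε)) := by
      rw [← Real.exp_add]
      congr 1
      ring
    rw [← e7]
    exact e3.trans e6
  · intro ε hε
    have hm : (0 : ℝ) < (m : ℝ) + 1 := by positivity
    set C : ℝ := ∑ k ∈ range (m + 1), (m : ℝ) ^ k with hC
    have hC0 : 0 ≤ C := Finset.sum_nonneg fun k _ => by positivity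
    filter_upwards [cg (ε / (2 * ((m : ℝ) + 1))) (by positivity), S.ev_R 0,
      S.ev_R (2 / ε * Real.log (C + 1))] with s h1 h3 h4 a ha i l hil
    have e1 := su_bd (hg s a) (h1 a ha)
    have e2 : |((((g s a)⁻¹ : (Matrix (Fin m) (Fin m) ℝ)ˣ)) : Matrix (Fin m) (Fin m) ℝ) i l| ≤
        ∑ k ∈ range (m + 1), (m : ℝ) ^ k * Real.exp (S.R s * (P a i - P a l + ε / 2)) := by
      rw [inv_eq _ (hg s a), Matrix.sum_apply]
      refine (Finset.abs_sum_le_sum_abs _ _).trans (Finset.sum_le_sum fun k hk => ?_)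
      refine (bd_pow e1 k i l).trans (mul_le_mul_of_nonneg_left ?_ (by positivity))
      apply Real.exp_le_exp.2
      apply mul_le_mul_of_nonneg_left _ h3
      have hk1 : (k : ℝ) ≤ (m : ℝ) + 1 := by
        have := Finset.mem_range.1 hk
        exact_mod_cast this.le
      have e3 : (k : ℝ) * (ε / (2 * ((m : ℝ) + 1))) ≤ ((m : ℝ) + 1) * (ε / (2 * ((m : ℝ) + 1))) :=
        mul_le_mul_of_nonneg_right hk1 (by positivity)
      have e4 : ((m : ℝ) + 1) * (ε / (2 * ((m : ℝ) + 1))) = ε / 2 := by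
        field_simp
      linarith
    rw [← Finset.sum_mul, ← hC] at e2
    have e5 : C ≤ Real.exp (S.R s * (ε / 2)) := by
      have := absorb hε (by linarith : (0 : ℝ) < C + 1) h4
      linarith
    have e6 := mul_le_mul_of_nonneg_right e5
      (Real.exp_pos (S.R s * (P a i - P a l + ε / 2))).le
    have e7 : Real.exp (S.R s * (ε / 2)) * Real.exp (S.R s * (P a i - P a l + ε / 2)) =
        Real.exp (S.R s * (P a i - P a l + ε)) := by
      rw [← Real.exp_add]
      congr 1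
      ring
    rw [← e7]
    exact e2.trans e6

end Pool.Agent.QSX.H24
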