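import Pool.Agent.QSX.StmtsE

/-!
# Squad QSX, row PRS: products of split data are split
-/

set_option autoImplicit false

namespace Pool.Agent.QSX.H24P

open Matrix Finset

variable {X Y : Dat}

/-- projection of the product `b` to the first factor -/
def p1 (X Y : Dat) : (X.prod Y).b →ₗ[ℝ] X.b :=
  LinearMap.codRestrict X.b ((LinearMap.funLeft ℝ ℝ (Fin.castAdd Y.m)) ∘ₗ (X.prod Y).b.subtype)
    (fun c => c.2.1)

/-- projection of the product `b` to the second factor -/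
def p2 (X Y : Dat) : (X.prod Y).b →ₗ[ℝ] Y.b :=
  LinearMap.codRestrict Y.b ((LinearMap.funLeft ℝ ℝ (Fin.natAdd X.m)) ∘ₗ (X.prod Y).b.subtype)
    (fun c => c.2.2)

theorem app_mem (a : X.b) (b : Y.b) :
    (Fin.append (a : Fin X.m → ℝ) (b : Fin Y.m → ℝ)) ∈ (X.prod Y).b := by
  constructor
  · change (fun i => Fin.append (a : Fin X.m → ℝ) (b : Fin Y.m → ℝ) (Fin.castAdd Y.m i)) ∈ X.b
    have : (fun i => Fin.append (a : Fin X.m → ℝ) (b : Fin Y.m → ℝ) (Fin.castAdd Y.m i)) =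
        (a : Fin X.m → ℝ) := by
      funext i; rw [Fin.append_left]
    rw [this]; exact a.2
  · change (fun i => Fin.append (a : Fin X.m → ℝ) (b : Fin Y.m → ℝ) (Fin.natAdd X.m i)) ∈ Y.b
    have : (fun i => Fin.append (a : Fin X.m → ℝ) (b : Fin Y.m → ℝ) (Fin.natAdd X.m i)) =
        (b : Fin Y.m → ℝ) := by
      funext i; rw [Fin.append_right]
    rw [this]; exact b.2

/-- the pair as an element of the product `b` -/
def ap (X Y : Dat) : (X.b × Y.b) →ₗ[ℝ] (X.prod Y).b where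
  toFun p := ⟨Fin.append (p.1 : Fin X.m → ℝ) (p.2 : Fin Y.m → ℝ), app_mem p.1 p.2⟩
  map_add' := by
    intro p q
    apply Subtype.ext
    change Fin.append ((p.1 + q.1 : X.b) : Fin X.m → ℝ) ((p.2 + q.2 : Y.b) : Fin Y.m → ℝ) =
      Fin.append (p.1 : Fin X.m → ℝ) (p.2 : Fin Y.m → ℝ) +
        Fin.append (q.1 : Fin X.m → ℝ) (q.2 : Fin Y.m → ℝ)
    funext i
    refine Fin.addCases (fun i => ?_) (fun i => ?_) i
    · rw [Pi.add_apply, Fin.append_left, Fin.append_left, Fin.append_left]; rfl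
    · rw [Pi.add_apply, Fin.append_right, Fin.append_right, Fin.append_right]; rfl
  map_smul' := by
    intro r p
    apply Subtype.ext
    change Fin.append ((r • p.1 : X.b) : Fin X.m → ℝ) ((r • p.2 : Y.b) : Fin Y.m → ℝ) =
      r • Fin.append (p.1 : Fin X.m → ℝ) (p.2 : Fin Y.m → ℝ)
    funext i
    refine Fin.addCases (fun i => ?_) (fun i => ?_) i
    · rw [Pi.smul_apply, Fin.append_left, Fin.append_left]; rfl
    · rw [Pi.smul_apply, Fin.append_right, Fin.append_right]; rfl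

theorem p1_ap (a : X.b) (b : Y.b) : p1 X Y (ap X Y (a, b)) = a := by
  apply Subtype.ext
  change (fun i => Fin.append (a : Fin X.m → ℝ) (b : Fin Y.m → ℝ) (Fin.castAdd Y.m i)) =
    (a : Fin X.m → ℝ)
  funext i; rw [Fin.append_left]

theorem p2_ap (a : X.b) (b : Y.b) : p2 X Y (ap X Y (a, b)) = b := by
  apply Subtype.ext
  change (fun i => Fin.append (a : Fin X.m → ℝ) (b : Fin Y.m → ℝ) (Fin.natAdd X.m i)) =
    (b : Fin Y.m → ℝ)
  funext i; rw [Fin.append_right]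

theorem coe_eq (c : (X.prod Y).b) :
    (c : Fin (X.prod Y).m → ℝ) =
      Fin.append (p1 X Y c : Fin X.m → ℝ) (p2 X Y c : Fin Y.m → ℝ) := by
  funext i
  refine Fin.addCases (fun i => ?_) (fun i => ?_) i
  · rw [Fin.append_left]; rfl
  · rw [Fin.append_right]; rfl

theorem ap_p (c : (X.prod Y).b) : ap X Y (p1 X Y c, p2 X Y c) = c :=
  Subtype.ext (coe_eq c).symm

/-- `x ↦ bd x 0` -/
def iL (m m' : ℕ) : Matrix (Fin m) (Fin m) ℝ →ₗ[ℝ] Matrix (Fin (m + m')) (Fin (m + m')) ℝ where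
  toFun x := bd x 0
  map_add' x y := by rw [bd_add, add_zero]
  map_smul' c x := by rw [RingHom.id_apply, bd_smul, smul_zero]

/-- `y ↦ bd 0 y` -/
def iR (m m' : ℕ) : Matrix (Fin m') (Fin m') ℝ →ₗ[ℝ] Matrix (Fin (m + m')) (Fin (m + m')) ℝ where
  toFun y := bd 0 y
  map_add' x y := by rw [bd_add, add_zero]
  map_smul' c x := by rw [RingHom.id_apply, bd_smul, smul_zero]

theorem iL_apply {m m' : ℕ} (x : Matrix (Fin m) (Fin m) ℝ) : iL m m' x = bd x 0 := rfl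

theorem iR_apply {m m' : ℕ} (y : Matrix (Fin m') (Fin m') ℝ) : iR m m' y = bd 0 y := rfl

theorem iL_ker (m m' : ℕ) : LinearMap.ker (iL m m') = ⊥ := by
  rw [LinearMap.ker_eq_bot]
  intro x y h
  exact (bd_inj (h : bd x 0 = bd y 0)).1

theorem iR_ker (m m' : ℕ) : LinearMap.ker (iR m m') = ⊥ := by
  rw [LinearMap.ker_eq_bot]
  intro x y h
  exact (bd_inj (h : bd 0 x = bd 0 y)).2

/-- the root vectors of the product -/
def ee (hX : X.Split) (hY : Y.Split) :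
    hX.ι ⊕ hY.ι → Matrix (Fin (X.m + Y.m)) (Fin (X.m + Y.m)) ℝ :=
  Sum.elim (iL X.m Y.m ∘ hX.e) (iR X.m Y.m ∘ hY.e)

theorem ee_inl (hX : X.Split) (hY : Y.Split) (l : hX.ι) :
    ee hX hY (Sum.inl l) = bd (hX.e l) 0 := rfl

theorem ee_inr (hX : X.Split) (hY : Y.Split) (l : hY.ι) :
    ee hX hY (Sum.inr l) = bd 0 (hY.e l) := rfl

theorem e_mem (hX : X.Split) (l : hX.ι) : hX.e l ∈ X.n := by
  rw [← hX.span_e]; exact Submodule.subset_span ⟨l, rfl⟩

theorem e_su (hX : X.Split) (l : hX.ι) : SU (hX.e l) := X.su _ (e_mem hX l)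

theorem span_ee (hX : X.Split) (hY : Y.Split) :
    Submodule.span ℝ (Set.range (ee hX hY)) = (X.prod Y).n := by
  rw [ee, Set.Sum.elim_range, Submodule.span_union, Set.range_comp, Set.range_comp,
    Submodule.span_image, Submodule.span_image, hX.span_e, hY.span_e]
  apply le_antisymm
  · refine sup_le ?_ ?_
    · rintro _ ⟨x, hx, rfl⟩
      exact ⟨x, hx, 0, Y.n.zero_mem, rfl⟩
    · rintro _ ⟨y, hy, rfl⟩
      exact ⟨0, X.n.zero_mem, y, hy, rfl⟩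
  · rintro _ ⟨x, hx, y, hy, rfl⟩
    have : bd x y = iL X.m Y.m x + iR X.m Y.m y := by
      rw [iL_apply, iR_apply, bd_add, add_zero, zero_add]
    rw [this]
    exact Submodule.add_mem_sup ⟨x, hx, rfl⟩ ⟨y, hy, rfl⟩

theorem lin_ee (hX : X.Split) (hY : Y.Split) : LinearIndependent ℝ (ee hX hY) := by
  refine LinearIndependent.sum_type (hX.lin.map' _ (iL_ker _ _)) (hY.lin.map' _ (iR_ker _ _)) ?_
  rw [Submodule.disjoint_def]
  intro z h1 h2
  have h3 : z ∈ LinearMap.range (iL X.m Y.m) := by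
    refine Submodule.span_le.2 ?_ h1
    rintro _ ⟨l, rfl⟩
    exact ⟨_, rfl⟩
  have h4 : z ∈ LinearMap.range (iR X.m Y.m) := by
    refine Submodule.span_le.2 ?_ h2
    rintro _ ⟨l, rfl⟩
    exact ⟨_, rfl⟩
  obtain ⟨x, hx⟩ := h3
  obtain ⟨y, hy⟩ := h4
  have h5 : bd x 0 = bd (0 : Matrix (Fin X.m) (Fin X.m) ℝ) y := by
    rw [← iL_apply, ← iR_apply, hx, hy]
  rw [← hx, iL_apply, (bd_inj h5).1, bd_zero]

/-- the roots of the product -/
def rr (hX : X.Split) (hY : Y.Split) : hX.ι ⊕ hY.ι → (X.prod Y).b →ₗ[ℝ] ℝ :=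
  Sum.elim (fun l => hX.rt l ∘ₗ p1 X Y) (fun l => hY.rt l ∘ₗ p2 X Y)

theorem rr_inl (hX : X.Split) (hY : Y.Split) (l : hX.ι) (c : (X.prod Y).b) :
    rr hX hY (Sum.inl l) c = hX.rt l (p1 X Y c) := rfl

theorem rr_inr (hX : X.Split) (hY : Y.Split) (l : hY.ι) (c : (X.prod Y).b) :
    rr hX hY (Sum.inr l) c = hY.rt l (p2 X Y c) := rfl

/-- the lists of the product -/
def LL (hX : X.Split) (hY : Y.Split) : hX.ι ⊕ hY.ι → hX.ι ⊕ hY.ι →
    List ((hX.ι ⊕ hY.ι) × ℕ × ℕ × ℚ)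
  | Sum.inl l, Sum.inl l' => (hX.L l l').map fun t => (Sum.inl t.1, t.2)
  | Sum.inr l, Sum.inr l' => (hY.L l l').map fun t => (Sum.inr t.1, t.2)
  | Sum.inl _, Sum.inr _ => []
  | Sum.inr _, Sum.inl _ => []

theorem ue_zero {m : ℕ} : ue (0 : Matrix (Fin m) (Fin m) ℝ) = 1 := by
  apply Units.ext
  rw [ue_val SU.zero, mexp_zero]; rfl

/-- `g ↦ bdU g 1` -/
def uL (m m' : ℕ) : (Matrix (Fin m) (Fin m) ℝ)ˣ →* (Matrix (Fin (m + m')) (Fin (m + m')) ℝ)ˣ where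
  toFun g := bdU g 1
  map_one' := by apply Units.ext; exact bd_one
  map_mul' g h := by rw [bdU_mul, one_mul]

/-- `h ↦ bdU 1 h` -/
def uR (m m' : ℕ) : (Matrix (Fin m') (Fin m') ℝ)ˣ →* (Matrix (Fin (m + m')) (Fin (m + m')) ℝ)ˣ where
  toFun g := bdU 1 g
  map_one' := by apply Units.ext; exact bd_one
  map_mul' g h := by rw [bdU_mul, one_mul]

theorem uL_apply {m m' : ℕ} (g : (Matrix (Fin m) (Fin m) ℝ)ˣ) : uL m m' g = bdU g 1 := rfl

theorem uR_apply {m m' : ℕ} (g : (Matrix (Fin m') (Fin m') ℝ)ˣ) : uR m m' g = bdU 1 g := rfl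

theorem ue_l (h : EbdStmt) {m m' : ℕ} (x : ℝ) {e : Matrix (Fin m) (Fin m) ℝ} (he : SU e) :
    ue (x • (bd e 0 : Matrix (Fin (m + m')) (Fin (m + m')) ℝ)) = uL m m' (ue (x • e)) := by
  rw [bd_smul, smul_zero, (h.1 ℝ m m' (x • e) 0 (he.smul x) SU.zero).2, ue_zero, uL_apply]

theorem ue_r (h : EbdStmt) {m m' : ℕ} (x : ℝ) {e : Matrix (Fin m') (Fin m') ℝ} (he : SU e) :
    ue (x • (bd 0 e : Matrix (Fin (m + m')) (Fin (m + m')) ℝ)) = uR m m' (ue (x • e)) := by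
  rw [bd_smul, smul_zero, (h.1 ℝ m m' 0 (x • e) SU.zero (he.smul x)).2, ue_zero, uR_apply]

theorem comm_lr {m m' : ℕ} (g : (Matrix (Fin m) (Fin m) ℝ)ˣ) (h : (Matrix (Fin m') (Fin m') ℝ)ˣ) :
    uL m m' g * uR m m' h * (uL m m' g)⁻¹ * (uR m m' h)⁻¹ = 1 := by
  rw [uL_apply, uR_apply, bdU_inv, bdU_inv, bdU_mul, bdU_mul, bdU_mul]
  have h1 : g * 1 * g⁻¹ * (1 : (Matrix (Fin m) (Fin m) ℝ)ˣ)⁻¹ = 1 := by group
  have h2 : (1 : (Matrix (Fin m') (Fin m') ℝ)ˣ) * h * (1 : (Matrix (Fin m') (Fin m') ℝ)ˣ)⁻¹ * h⁻¹ = 1 := by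
    group
  rw [h1, h2]
  exact (uL m m').map_one

theorem comm_rl {m m' : ℕ} (g : (Matrix (Fin m) (Fin m) ℝ)ˣ) (h : (Matrix (Fin m') (Fin m') ℝ)ˣ) :
    uR m m' h * uL m m' g * (uR m m' h)⁻¹ * (uL m m' g)⁻¹ = 1 := by
  rw [uL_apply, uR_apply, bdU_inv, bdU_inv, bdU_mul, bdU_mul, bdU_mul]
  have h1 : (1 : (Matrix (Fin m) (Fin m) ℝ)ˣ) * g * (1 : (Matrix (Fin m) (Fin m) ℝ)ˣ)⁻¹ * g⁻¹ = 1 := by
    group
  have h2 : h * 1 * h⁻¹ * (1 : (Matrix (Fin m') (Fin m') ℝ)ˣ)⁻¹ = 1 := by group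
  rw [h1, h2]
  exact (uL m m').map_one

theorem com_ee (h : EbdStmt) (hX : X.Split) (hY : Y.Split) (l l' : hX.ι ⊕ hY.ι) (hl : l ≠ l')
    (x y : ℝ) :
    ue (x • ee hX hY l) * ue (y • ee hX hY l') * (ue (x • ee hX hY l))⁻¹ *
      (ue (y • ee hX hY l'))⁻¹ =
    ((LL hX hY l l').map fun t =>
      ue (((t.2.2.2 : ℝ) * x ^ t.2.1 * y ^ t.2.2.1) • ee hX hY t.1)).prod := by
  rcases l with l | l <;> rcases l' with l' | l'
  · rw [ee_inl, ee_inl, ue_l h x (e_su hX l), ue_l h y (e_su hX l'), ← map_inv, ← map_inv,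
      ← map_mul, ← map_mul, ← map_mul, hX.com l l' (fun e => hl (by rw [e])) x y, map_list_prod,
      List.map_map]
    change _ = (((hX.L l l').map fun t => ((Sum.inl t.1 : hX.ι ⊕ hY.ι), t.2)).map fun t =>
      ue (((t.2.2.2 : ℝ) * x ^ t.2.1 * y ^ t.2.2.1) • ee hX hY t.1)).prod
    rw [List.map_map]
    refine congrArg List.prod (List.map_congr_left fun t _ => ?_)
    change uL X.m Y.m (ue (((t.2.2.2 : ℝ) * x ^ t.2.1 * y ^ t.2.2.1) • hX.e t.1)) =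
      ue (((t.2.2.2 : ℝ) * x ^ t.2.1 * y ^ t.2.2.1) • ee hX hY (Sum.inl t.1))
    rw [ee_inl, ue_l h _ (e_su hX t.1)]
  · rw [ee_inl, ee_inr, ue_l h x (e_su hX l), ue_r h y (e_su hY l'), comm_lr]
    rfl
  · rw [ee_inl, ee_inr, ue_r h x (e_su hY l), ue_l h y (e_su hX l'), comm_rl]
    rfl
  · rw [ee_inr, ee_inr, ue_r h x (e_su hY l), ue_r h y (e_su hY l'), ← map_inv, ← map_inv,
      ← map_mul, ← map_mul, ← map_mul, hY.com l l' (fun e => hl (by rw [e])) x y, map_list_prod,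
      List.map_map]
    change _ = (((hY.L l l').map fun t => ((Sum.inr t.1 : hX.ι ⊕ hY.ι), t.2)).map fun t =>
      ue (((t.2.2.2 : ℝ) * x ^ t.2.1 * y ^ t.2.2.1) • ee hX hY t.1)).prod
    rw [List.map_map]
    refine congrArg List.prod (List.map_congr_left fun t _ => ?_)
    change uR X.m Y.m (ue (((t.2.2.2 : ℝ) * x ^ t.2.1 * y ^ t.2.2.1) • hY.e t.1)) =
      ue (((t.2.2.2 : ℝ) * x ^ t.2.1 * y ^ t.2.2.1) • ee hX hY (Sum.inr t.1))
    rw [ee_inr, ue_r h _ (e_su hY t.1)]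

theorem wt_ee (hX : X.Split) (hY : Y.Split) (l : hX.ι ⊕ hY.ι) (c : (X.prod Y).b) :
    (diagonal (c : Fin (X.prod Y).m → ℝ) : Matrix (Fin (X.m + Y.m)) (Fin (X.m + Y.m)) ℝ) *
      ee hX hY l - ee hX hY l *
      (diagonal (c : Fin (X.prod Y).m → ℝ) : Matrix (Fin (X.m + Y.m)) (Fin (X.m + Y.m)) ℝ) =
      rr hX hY l c • ee hX hY l := by
  have hc : (diagonal (c : Fin (X.prod Y).m → ℝ) :
      Matrix (Fin (X.m + Y.m)) (Fin (X.m + Y.m)) ℝ) =
      bd (diagonal (p1 X Y c : Fin X.m → ℝ)) (diagonal (p2 X Y c : Fin Y.m → ℝ)) := by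
    rw [bd_diagonal]; exact congrArg diagonal (coe_eq c)
  rw [hc]
  rcases l with l | l
  · rw [ee_inl, rr_inl, bd_mul, bd_mul, bd_sub, bd_smul, hX.wt l, mul_zero, zero_mul, sub_zero,
      smul_zero]
  · rw [ee_inr, rr_inr, bd_mul, bd_mul, bd_sub, bd_smul, hY.wt l, mul_zero, zero_mul, sub_zero,
      smul_zero]

theorem nonprop_rr (hX : X.Split) (hY : Y.Split) (l l' : hX.ι ⊕ hY.ι) (hl : l ≠ l') (c : ℝ) :
    rr hX hY l ≠ c • rr hX hY l' := by
  intro h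
  rcases l with l | l <;> rcases l' with l' | l'
  · refine hX.nonprop l l' (fun e => hl (by rw [e])) c ?_
    ext a
    have := congrArg (fun f => f (ap X Y (a, 0))) h
    change hX.rt l (p1 X Y (ap X Y (a, 0))) = c • hX.rt l' (p1 X Y (ap X Y (a, 0))) at this
    rwa [p1_ap] at this
  · obtain ⟨a, ha⟩ := hX.pos
    have := congrArg (fun f => f (ap X Y (a, 0))) h
    change hX.rt l (p1 X Y (ap X Y (a, 0))) = c • hY.rt l' (p2 X Y (ap X Y (a, 0))) at this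
    rw [p1_ap, p2_ap, map_zero, smul_zero] at this
    exact absurd this (ha l).ne'
  · obtain ⟨a, ha⟩ := hY.pos
    have := congrArg (fun f => f (ap X Y (0, a))) h
    change hY.rt l (p2 X Y (ap X Y (0, a))) = c • hX.rt l' (p1 X Y (ap X Y (0, a))) at this
    rw [p1_ap, p2_ap, map_zero, smul_zero] at this
    exact absurd this (ha l).ne'
  · refine hY.nonprop l l' (fun e => hl (by rw [e])) c ?_
    ext a
    have := congrArg (fun f => f (ap X Y (0, a))) h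
    change hY.rt l (p2 X Y (ap X Y (0, a))) = c • hY.rt l' (p2 X Y (ap X Y (0, a))) at this
    rwa [p2_ap] at this

theorem L_rt_rr (hX : X.Split) (hY : Y.Split) (l l' : hX.ι ⊕ hY.ι) :
    ∀ t ∈ LL hX hY l l', 1 ≤ t.2.1 ∧ 1 ≤ t.2.2.1 ∧
      rr hX hY t.1 = (t.2.1 : ℝ) • rr hX hY l + (t.2.2.1 : ℝ) • rr hX hY l' := by
  rcases l with l | l <;> rcases l' with l' | l' <;> intro t ht
  · obtain ⟨s, hs, rfl⟩ := List.mem_map.1 ht
    obtain ⟨h1, h2, h3⟩ := hX.L_rt l l' s hs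
    refine ⟨h1, h2, ?_⟩
    ext a
    exact congrArg (fun f => f (p1 X Y a)) h3
  · exact absurd ht List.not_mem_nil
  · exact absurd ht List.not_mem_nil
  · obtain ⟨s, hs, rfl⟩ := List.mem_map.1 ht
    obtain ⟨h1, h2, h3⟩ := hY.L_rt l l' s hs
    refine ⟨h1, h2, ?_⟩
    ext a
    exact congrArg (fun f => f (p2 X Y a)) h3

theorem L_nodup_rr (hX : X.Split) (hY : Y.Split) (l l' : hX.ι ⊕ hY.ι) :
    ((LL hX hY l l').map fun t => t.1).Nodup := by
  rcases l with l | l <;> rcases l' with l' | l'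
  · change (((hX.L l l').map fun t => ((Sum.inl t.1 : hX.ι ⊕ hY.ι), t.2)).map fun t => t.1).Nodup
    rw [List.map_map]
    have : ((hX.L l l').map fun t => t.1).map (Sum.inl : hX.ι → hX.ι ⊕ hY.ι) =
        (hX.L l l').map ((fun t => t.1) ∘ fun t => ((Sum.inl t.1 : hX.ι ⊕ hY.ι), t.2)) := by
      rw [List.map_map]; rfl
    rw [← this]
    exact (hX.L_nodup l l').map Sum.inl_injective
  · exact List.nodup_nil
  · exact List.nodup_nil
  · change (((hY.L l l').map fun t => ((Sum.inr t.1 : hX.ι ⊕ hY.ι), t.2)).map fun t => t.1).Nodup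
    rw [List.map_map]
    have : ((hY.L l l').map fun t => t.1).map (Sum.inr : hY.ι → hX.ι ⊕ hY.ι) =
        (hY.L l l').map ((fun t => t.1) ∘ fun t => ((Sum.inr t.1 : hX.ι ⊕ hY.ι), t.2)) := by
      rw [List.map_map]; rfl
    rw [← this]
    exact (hY.L_nodup l l').map Sum.inr_injective

theorem L_comp_rr (hX : X.Split) (hY : Y.Split) (l l' : hX.ι ⊕ hY.ι) :
    ∀ t ∈ LL hX hY l l', Sum.map hX.comp hY.comp t.1 = Sum.map hX.comp hY.comp l ∧
      Sum.map hX.comp hY.comp t.1 = Sum.map hX.comp hY.comp l' := by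
  rcases l with l | l <;> rcases l' with l' | l' <;> intro t ht
  · obtain ⟨s, hs, rfl⟩ := List.mem_map.1 ht
    obtain ⟨h1, h2⟩ := hX.L_comp l l' s hs
    exact ⟨congrArg Sum.inl h1, congrArg Sum.inl h2⟩
  · exact absurd ht List.not_mem_nil
  · exact absurd ht List.not_mem_nil
  · obtain ⟨s, hs, rfl⟩ := List.mem_map.1 ht
    obtain ⟨h1, h2⟩ := hY.L_comp l l' s hs
    exact ⟨congrArg Sum.inr h1, congrArg Sum.inr h2⟩

theorem climb_rr (hX : X.Split) (hY : Y.Split) (l : hX.ι ⊕ hY.ι)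
    (hl : l ≠ Sum.map hX.top hY.top (Sum.map hX.comp hY.comp l)) :
    ∃ l', l' ≠ l ∧ ee hX hY l * ee hX hY l' - ee hX hY l' * ee hX hY l ≠ 0 := by
  rcases l with l | l
  · obtain ⟨l', h1, h2⟩ := hX.climb l (fun e => hl (congrArg Sum.inl e))
    refine ⟨Sum.inl l', fun e => h1 (Sum.inl_injective e), fun e => h2 ?_⟩
    rw [ee_inl, ee_inl, bd_mul, bd_mul, bd_sub, ← bd_zero] at e
    exact (bd_inj e).1
  · obtain ⟨l', h1, h2⟩ := hY.climb l (fun e => hl (congrArg Sum.inr e))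
    refine ⟨Sum.inr l', fun e => h1 (Sum.inr_injective e), fun e => h2 ?_⟩
    rw [ee_inr, ee_inr, bd_mul, bd_mul, bd_sub, ← bd_zero] at e
    exact (bd_inj e).2

theorem scal_rr (hX : X.Split) (hY : Y.Split) (κ : hX.J ⊕ hY.J → ℝ) (hκ : ∀ j, 0 < κ j) :
    ∃ S : (X.prod Y).b →ₗ[ℝ] (X.prod Y).b, ∀ l a,
      rr hX hY l (S a) = κ (Sum.map hX.comp hY.comp l) * rr hX hY l a := by
  obtain ⟨S1, h1⟩ := hX.scal (fun j => κ (Sum.inl j)) (fun j => hκ _)
  obtain ⟨S2, h2⟩ := hY.scal (fun j => κ (Sum.inr j)) (fun j => hκ _)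
  refine ⟨ap X Y ∘ₗ (S1.prodMap S2) ∘ₗ ((p1 X Y).prod (p2 X Y)), fun l a => ?_⟩
  rcases l with l | l
  · change hX.rt l (p1 X Y (ap X Y (S1 (p1 X Y a), S2 (p2 X Y a)))) =
      κ (Sum.inl (hX.comp l)) * hX.rt l (p1 X Y a)
    rw [p1_ap, h1]
  · change hY.rt l (p2 X Y (ap X Y (S1 (p1 X Y a), S2 (p2 X Y a)))) =
      κ (Sum.inr (hY.comp l)) * hY.rt l (p2 X Y a)
    rw [p2_ap, h2]

theorem sep_rr (hX : X.Split) (hY : Y.Split) (a : (X.prod Y).b) (h : ∀ l, rr hX hY l a = 0) :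
    a = 0 := by
  have h1 : p1 X Y a = 0 := hX.sep _ fun l => h (Sum.inl l)
  have h2 : p2 X Y a = 0 := hY.sep _ fun l => h (Sum.inr l)
  rw [← ap_p a, h1, h2]
  exact map_zero _

theorem pos_rr (hX : X.Split) (hY : Y.Split) : ∃ a : (X.prod Y).b, ∀ l, 0 < rr hX hY l a := by
  obtain ⟨a, ha⟩ := hX.pos
  obtain ⟨b, hb⟩ := hY.pos
  refine ⟨ap X Y (a, b), fun l => ?_⟩
  rcases l with l | l
  · rw [rr_inl, p1_ap]; exact ha l
  · rw [rr_inr, p2_ap]; exact hb l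

theorem comp_top_rr (hX : X.Split) (hY : Y.Split) (l : hX.ι ⊕ hY.ι) :
    Sum.map hX.comp hY.comp (Sum.map hX.top hY.top (Sum.map hX.comp hY.comp l)) =
      Sum.map hX.comp hY.comp l := by
  rcases l with l | l
  · exact congrArg Sum.inl (hX.comp_top l)
  · exact congrArg Sum.inr (hY.comp_top l)

/-- the splitting of the product -/
noncomputable def spl (h : EbdStmt) (hX : X.Split) (hY : Y.Split) : (X.prod Y).Split where
  ι := hX.ι ⊕ hY.ι
  fin := @instFintypeSum _ _ hX.fin hY.fin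
  dec := @instDecidableEqSum _ _ hX.dec hY.dec
  e := ee hX hY
  span_e := span_ee hX hY
  lin := lin_ee hX hY
  rt := rr hX hY
  wt := wt_ee hX hY
  pos := pos_rr hX hY
  sep := sep_rr hX hY
  nonprop := nonprop_rr hX hY
  L := LL hX hY
  L_rt := L_rt_rr hX hY
  L_nodup := L_nodup_rr hX hY
  com := com_ee h hX hY
  J := hX.J ⊕ hY.J
  comp := Sum.map hX.comp hY.comp
  top := Sum.map hX.top hY.top
  comp_top := comp_top_rr hX hY
  L_comp := L_comp_rr hX hY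
  climb := climb_rr hX hY
  scal := scal_rr hX hY

theorem prs (h1 : EbdStmt) : PrsStmt := by
  rintro X Y ⟨hX⟩ ⟨hY⟩
  exact ⟨spl h1 hX hY⟩

end Pool.Agent.QSX.H24P
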